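import Mathlib

/-! Project BR, GLOB: linear independence of the image of a central division algebra under a
representation over a bigger field; simplicity of the base change. -/

set_option autoImplicit false

namespace Pool.Agent.Helper18.BR

open Finset

section

variable {L F D B : Type*} [Field L] [Field F] [Algebra L F] [DivisionRing D] [Algebra L D]
  [Algebra.IsCentral L D] [Ring B] [Nontrivial B] [Algebra L B] [Algebra F B] [IsScalarTower L F B]

theorem inj_aux (φ : D →ₐ[L] B) : ∀ (n : ℕ) (c : Fin n → F), LinearIndependent L c →
    ∀ x : Fin n → D, ∑ j, c j • φ (x j) = 0 → ∀ j, x j = 0 := by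
  intro n
  induction n with
  | zero => intro c _ x _ j; exact j.elim0
  | succ n ih =>
    intro c hc x hx
    have htail : LinearIndependent L (fun j : Fin n => c j.succ) :=
      hc.comp Fin.succ (Fin.succ_injective n)
    by_cases h0 : x 0 = 0
    · rw [Fin.sum_univ_succ, h0, map_zero, smul_zero, zero_add] at hx
      have := ih _ htail (fun j => x j.succ) hx
      intro j
      refine Fin.cases h0 (fun i => this i) j
    · exfalso
      obtain ⟨y, hy⟩ : ∃ y : Fin (n + 1) → D, y = fun j => (x 0)⁻¹ * x j := ⟨_, rfl⟩
      have hy0 : y 0 = 1 := by simp [hy, inv_mul_cancel₀ h0]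
      have hysum : ∑ j, c j • φ (y j) = 0 := by
        have h1 : φ ((x 0)⁻¹) * ∑ j, c j • φ (x j) = 0 := by rw [hx, mul_zero]
        rw [Finset.mul_sum] at h1
        rw [← h1]
        refine Finset.sum_congr rfl fun j _ => ?_
        rw [mul_smul_comm, hy]
        change c j • φ ((x 0)⁻¹ * x j) = _
        rw [map_mul]
      have hcomm : ∀ (a : D) (j : Fin n), a * y j.succ - y j.succ * a = 0 := by
        intro a
        refine ih _ htail (fun j => a * y j.succ - y j.succ * a) ?_
        have h1 : φ a * ∑ j, c j • φ (y j) - (∑ j, c j • φ (y j)) * φ a = 0 := by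
          rw [hysum, mul_zero, zero_mul, sub_zero]
        rw [Finset.mul_sum, Finset.sum_mul, ← Finset.sum_sub_distrib, Fin.sum_univ_succ] at h1
        simp only [hy0, map_one, mul_smul_comm, smul_mul_assoc, mul_one, one_mul, sub_self,
          zero_add] at h1
        rw [← h1]
        refine Finset.sum_congr rfl fun j _ => ?_
        rw [map_sub, map_mul, map_mul, smul_sub]
      have hcen : ∀ j : Fin (n + 1), ∃ t : L, y j = algebraMap L D t := by
        intro j
        refine Fin.cases ⟨1, by rw [hy0, map_one]⟩ (fun i => ?_) j
        have h2 : y i.succ ∈ Subalgebra.center L D := by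
          rw [Subalgebra.mem_center_iff]
          intro a
          exact sub_eq_zero.1 (hcomm a i)
        rw [Algebra.IsCentral.mem_center_iff] at h2
        exact h2
      choose t ht using hcen
      have hsum : ∑ j, t j • c j = 0 := by
        have h3 : algebraMap F B (∑ j, t j • c j) = 0 := by
          rw [map_sum, ← hysum]
          refine Finset.sum_congr rfl fun j _ => ?_
          rw [ht j, AlgHom.commutes, IsScalarTower.algebraMap_apply L F B, Algebra.smul_def (c j),
            ← map_mul, Algebra.smul_def, mul_comm]
        exact (map_eq_zero_iff _ (algebraMap F B).injective).1 h3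
      have h4 := Fintype.linearIndependent_iff.1 hc t hsum 0
      have h5 : y 0 = 0 := by rw [ht 0, h4, map_zero]
      rw [hy0] at h5
      exact one_ne_zero h5

/-- `L`-independent elements of a central division algebra stay `F`-independent. -/
theorem linearIndependent_map (φ : D →ₐ[L] B) {ι : Type*} [Fintype ι] (b : ι → D)
    (hb : LinearIndependent L b) : LinearIndependent F (fun i => φ (b i)) := by
  classical
  rw [Fintype.linearIndependent_iff]
  intro g hg
  set V : Submodule L F := Submodule.span L (Set.range g) with hV
  have : Module.Finite L V := Module.Finite.span_of_finite L (Set.finite_range g)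
  let e := Module.finBasis L V
  set n := Module.finrank L V
  have hmem : ∀ i, g i ∈ V := fun i => Submodule.subset_span ⟨i, rfl⟩
  set lam : ι → Fin n → L := fun i k => e.repr ⟨g i, hmem i⟩ k with hlam
  have hgi : ∀ i, g i = ∑ k, lam i k • (e k : F) := by
    intro i
    have h1 := congrArg (fun v : V => (v : F)) (e.sum_repr ⟨g i, hmem i⟩)
    simp only [Submodule.coe_sum, Submodule.coe_smul] at h1
    exact h1.symm
  have hc : LinearIndependent L (fun k : Fin n => (e k : F)) :=
    e.linearIndependent.map' V.subtype (Submodule.ker_subtype V)
  have hx : ∑ k, (e k : F) • φ (∑ i, lam i k • b i) = 0 := by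
    have h2 : ∑ k, (e k : F) • φ (∑ i, lam i k • b i) = ∑ i, g i • φ (b i) := by
      have h3 : ∀ k : Fin n, (e k : F) • φ (∑ i, lam i k • b i)
          = ∑ i, (lam i k • (e k : F)) • φ (b i) := by
        intro k
        rw [map_sum, Finset.smul_sum]
        refine Finset.sum_congr rfl fun i _ => ?_
        rw [map_smul, smul_comm, ← smul_assoc]
      rw [Finset.sum_congr rfl fun k _ => h3 k, Finset.sum_comm]
      refine Finset.sum_congr rfl fun i _ => ?_
      rw [← Finset.sum_smul, ← hgi i]
    rw [h2, hg]
  have hz := inj_aux φ n _ hc _ hx
  intro i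
  rw [hgi i]
  refine Finset.sum_eq_zero fun k _ => ?_
  rw [Fintype.linearIndependent_iff.1 hb (fun i => lam i k) (hz k) i, zero_smul]

end

end Pool.Agent.Helper18.BR
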