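import Pool.Agent.Helper8.BR.Defs
import Pool.Agent.Helper45.BR.Base

/-! Project BR, block GLOB: R1 - R5, a representation of a central simple algebra over a bigger
field, its matrix in a basis, characteristic polynomial, trace and discriminant. -/

set_option autoImplicit false

namespace Pool.Agent.Helper18.BR

open NumberField IsDedekindDomain Polynomial Module Pool.Agent.Helper8.BR
open scoped TensorProduct

section rep
variable {L D F : Type} [Field L] [Ring D] [Algebra L D] [Algebra.IsCentral L D] [IsSimpleRing D]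
  [Module.Finite L D] [Field F] [Algebra L F] {d : ℕ}

omit [Module.Finite L D] in
/-- R1 -/
theorem indep (hd0 : 0 < d) {ι : Type} (b : Basis ι L D) (φ : D →ₐ[L] Matrix (Fin d) (Fin d) F) :
    LinearIndependent F fun k => φ (b k) := by
  have : Nonempty (Fin d) := ⟨⟨0, hd0⟩⟩
  have hs : IsSimpleRing (F ⊗[L] D) := Helper45.BR.isSimple_baseChange L F D
  let ψ : F ⊗[L] D →ₐ[F] Matrix (Fin d) (Fin d) F :=
    Algebra.TensorProduct.lift (Algebra.ofId F _) φ
      (fun a x => Algebra.commutes a (φ x))
  have hinj : Function.Injective ψ := RingHom.injective ψ.toRingHom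
  have h1 := (Algebra.TensorProduct.basis F b).linearIndependent.map' ψ.toLinearMap
    (LinearMap.ker_eq_bot.2 hinj)
  have h2 : (ψ.toLinearMap ∘ ⇑(Algebra.TensorProduct.basis F b)) = fun k => φ (b k) := by
    funext k
    change ψ (Algebra.TensorProduct.basis F b k) = _
    rw [Algebra.TensorProduct.basis_apply]
    simp [ψ]
  rw [h2] at h1
  exact h1

omit [Module.Finite L D] in
/-- R5 -/
theorem det_ne (hd0 : 0 < d) (φ : D →ₐ[L] Matrix (Fin d) (Fin d) F)
    (b : Basis (Fin d × Fin d) L D) : (repMat φ b).det ≠ 0 := by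
  have h1 := indep hd0 b φ
  have h2 : LinearIndependent F (repMat φ b).col := by
    have h3 := h1.map' ((Matrix.ofLinearEquiv F).symm.trans
      (LinearEquiv.curry F F (Fin d) (Fin d)).symm).toLinearMap (LinearEquiv.ker _)
    exact h3
  rw [Matrix.linearIndependent_cols_iff_isUnit] at h2
  exact ((Matrix.isUnit_iff_isUnit_det _).1 h2).ne_zero

omit [Algebra.IsCentral L D] [IsSimpleRing D] [Module.Finite L D] in
theorem repMat_mul (φ : D →ₐ[L] Matrix (Fin d) (Fin d) F)
    (b : Basis (Fin d × Fin d) L D) (x : D) :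
    repMat φ b * (LinearMap.toMatrix b b (LinearMap.mulLeft L x)).map (algebraMap L F) =
      Matrix.kronecker (φ x) (1 : Matrix (Fin d) (Fin d) F) * repMat φ b := by
  ext p k
  have h1 : x * b k = ∑ j, LinearMap.toMatrix b b (LinearMap.mulLeft L x) j k • b j := by
    conv_lhs => rw [← b.sum_repr (x * b k)]
    refine Finset.sum_congr rfl fun j _ => ?_
    rw [LinearMap.toMatrix_apply, LinearMap.mulLeft_apply]
  have h2 := congrArg φ h1
  rw [map_mul, map_sum] at h2
  have h3 := congrFun (congrFun h2 p.1) p.2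
  rw [Matrix.sum_apply, Matrix.mul_apply] at h3
  rw [Matrix.mul_apply, Matrix.mul_apply, Fintype.sum_prod_type (f := fun q : Fin d × Fin d =>
    Matrix.kronecker (φ x) (1 : Matrix (Fin d) (Fin d) F) p q * repMat φ b q k)]
  have h4 : ∀ q1 : Fin d, ∑ q2 : Fin d,
      Matrix.kronecker (φ x) (1 : Matrix (Fin d) (Fin d) F) p (q1, q2) * repMat φ b (q1, q2) k =
      φ x p.1 q1 * φ (b k) q1 p.2 := by
    intro q1
    rw [Finset.sum_eq_single p.2]
    · simp [Matrix.kronecker, repMat]
    · intro q2 _ hq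
      simp [Matrix.kronecker, Ne.symm hq]
    · intro h
      exact absurd (Finset.mem_univ _) h
  rw [Finset.sum_congr rfl fun q1 _ => h4 q1, h3]
  refine Finset.sum_congr rfl fun j _ => ?_
  rw [map_smul, Matrix.smul_apply, Algebra.smul_def, Matrix.map_apply, mul_comm]
  rfl

omit [Algebra.IsCentral L D] [IsSimpleRing D] in
theorem exists_basis_sq (hd : finrank L D = d ^ 2) : Nonempty (Basis (Fin d × Fin d) L D) := by
  have e : Fin d × Fin d ≃ Fin (d ^ 2) := finProdFinEquiv.trans (finCongr (by ring))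
  exact ⟨(Module.finBasisOfFinrankEq L D hd).reindex e.symm⟩

/-- R2 -/
theorem chi_rep (hd0 : 0 < d) (hd : finrank L D = d ^ 2) (φ : D →ₐ[L] Matrix (Fin d) (Fin d) F)
    (x : D) :
    (chi L x).map (algebraMap L F) =
      (Matrix.kronecker (φ x) (1 : Matrix (Fin d) (Fin d) F)).charpoly := by
  obtain ⟨b⟩ := exists_basis_sq (L := L) (D := D) hd
  have hdet := det_ne hd0 φ b
  have hu : IsUnit (repMat φ b).det := isUnit_iff_ne_zero.2 hdet
  have h1 := repMat_mul φ b x
  unfold chi
  rw [← LinearMap.charpoly_toMatrix (LinearMap.mulLeft L x) b, ← Matrix.charpoly_map]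
  set A := (LinearMap.toMatrix b b (LinearMap.mulLeft L x)).map (algebraMap L F)
  have h2 : A = (repMat φ b)⁻¹ * (repMat φ b * A) := by
    rw [← mul_assoc, Matrix.nonsing_inv_mul _ hu, one_mul]
  rw [h2, h1, Matrix.charpoly_mul_comm, mul_assoc, Matrix.mul_nonsing_inv _ hu, mul_one]

/-- R3 -/
theorem trace_rep (hd0 : 0 < d) (hd : finrank L D = d ^ 2)
    (φ : D →ₐ[L] Matrix (Fin d) (Fin d) F) (x : D) :
    algebraMap L F (tr L x) = d * (φ x).trace := by
  obtain ⟨b⟩ := exists_basis_sq (L := L) (D := D) hd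
  have hdet := det_ne hd0 φ b
  have hu : IsUnit (repMat φ b).det := isUnit_iff_ne_zero.2 hdet
  have h1 := repMat_mul φ b x
  unfold tr
  rw [LinearMap.trace_eq_matrix_trace L b, AddMonoidHom.map_trace]
  have h0 : (algebraMap L F).toAddMonoidHom.mapMatrix
      (LinearMap.toMatrix b b (LinearMap.mulLeft L x)) =
      (LinearMap.toMatrix b b (LinearMap.mulLeft L x)).map (algebraMap L F) := rfl
  set A := (LinearMap.toMatrix b b (LinearMap.mulLeft L x)).map (algebraMap L F) with hA
  have h2 : A = (repMat φ b)⁻¹ * (repMat φ b * A) := by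
    rw [← mul_assoc, Matrix.nonsing_inv_mul _ hu, one_mul]
  have h3 : A.trace = d * (φ x).trace := by
    rw [h2, h1, Matrix.trace_mul_comm, mul_assoc, Matrix.mul_nonsing_inv _ hu, mul_one]
    have h5 := Matrix.trace_kronecker (φ x) (1 : Matrix (Fin d) (Fin d) F)
    rw [Matrix.trace_one, Fintype.card_fin, mul_comm] at h5
    exact h5
  exact h3

/-- R4 -/
theorem disc_rep (hd0 : 0 < d) (hd : finrank L D = d ^ 2)
    (φ : D →ₐ[L] Matrix (Fin d) (Fin d) F) (b : Fin d × Fin d → D) :
    algebraMap L F (disc L b) = (sgn d : F) * (d : F) ^ (d ^ 2) * (repMat φ b).det ^ 2 := by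
  unfold disc
  rw [RingHom.map_det]
  have h1 : (algebraMap L F).mapMatrix (Matrix.of fun k l => tr L (b k * b l)) =
      (d : F) • ((repMat φ b).transpose *
        (repMat φ b).submatrix (Equiv.prodComm (Fin d) (Fin d)) id) := by
    ext k l
    rw [RingHom.mapMatrix_apply, Matrix.map_apply, Matrix.of_apply, trace_rep hd0 hd φ, map_mul,
      Matrix.smul_apply, smul_eq_mul, Matrix.mul_apply, Fintype.sum_prod_type]
    congr 1
  rw [h1, Matrix.det_smul, Matrix.det_mul, Matrix.det_transpose, Matrix.det_permute]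
  have h2 : Fintype.card (Fin d × Fin d) = d ^ 2 := by
    rw [Fintype.card_prod, Fintype.card_fin]; ring
  rw [h2]
  unfold sgn
  ring

end rep

end Pool.Agent.Helper18.BR
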